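import Mathlib

/-!
# Upper bound for the spread of `PSL_2(q)`, `q = 3 mod 4`

Points of the conic are the lines of `F^2`, involutions of `PSL_2(q)` are the classes of the
matrices `J` of trace zero and determinant one. Two different involutions commute iff the trace of
their product is zero. An element `y` fixes a line of `F^2` or commutes with an involution. The
`(q-1)/2` involutions which exchange the lines of `(1,0)` and `(x,1)` centralise-meet `J = (a,b;c,-a)`
iff `(c x - a)^2 + 1` is not a square; this happens for at least half of all `x`, so that `k` greedy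
steps leave at most `q (q-1) / 2^(k+1)` involutions.
-/

set_option autoImplicit false
set_option linter.unusedSectionVars false

namespace PSLSpread

open Matrix

/-- `G` has the `k`-spread property: for any `k` nontrivial elements (not necessarily distinct)
there is a `y` generating `G` together with each of them. -/
def HasSpread (G : Type*) [Group G] (k : ℕ) : Prop :=
  ∀ x : Fin k → G, (∀ i, x i ≠ 1) → ∃ y : G, ∀ i, Subgroup.closure {x i, y} = ⊤

/-- The spread of a group: the largest `k` with the `k`-spread property. -/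
noncomputable def spread (G : Type*) [Group G] : ℕ := sSup {k | HasSpread G k}

variable {F : Type*} [Field F]

/-- 2 x 2 matrices -/
abbrev M2 (F : Type*) := Matrix (Fin 2) (Fin 2) F

/-- the group `SL_2` -/
abbrev SL (F : Type*) [CommRing F] := Matrix.SpecialLinearGroup (Fin 2) F

/-- matrix with determinant one -/
def mk2 (a b c d : F) (h : a * d - b * c = 1) : SL F :=
  ⟨!![a, b; c, d], by rw [Matrix.det_fin_two_of]; exact h⟩

lemma coe_mk2 (a b c d : F) (h : a * d - b * c = 1) : ((mk2 a b c d h : SL F) : M2 F) =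
    !![a, b; c, d] := rfl

/-- the class of a matrix in `PSL` -/
def pr (A : SL F) : Matrix.ProjectiveSpecialLinearGroup (Fin 2) F :=
  QuotientGroup.mk A

lemma center_scalar {A : SL F} (h : A ∈ Subgroup.center (SL F)) :
    ∃ r : F, (A : M2 F) = Matrix.scalar (Fin 2) r := by
  rw [Matrix.SpecialLinearGroup.mem_center_iff] at h
  obtain ⟨r, -, hr⟩ := h
  exact ⟨r, hr.symm⟩

lemma pr_ne_one {A : SL F} (h : (A : M2 F) 1 0 ≠ 0 ∨ (A : M2 F) 0 0 ≠ (A : M2 F) 1 1) :
    pr A ≠ 1 := by
  intro h1
  have h2 : A ∈ Subgroup.center (SL F) := by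
    rwa [pr, QuotientGroup.eq_one_iff] at h1
  obtain ⟨r, hr⟩ := center_scalar h2
  rw [hr] at h
  simp at h

/-- If a proper subgroup of `SL` contains lifts of `x, y` and the centre, then
`x, y` do not generate `PSL`. -/
lemma closure_ne_top (H : Subgroup (SL F))
    (hc : Subgroup.center (SL F) ≤ H) (hH : H ≠ ⊤)
    {A B : SL F} (hA : A ∈ H) (hB : B ∈ H) :
    Subgroup.closure {pr A, pr B} ≠ ⊤ := by
  intro h
  apply hH
  rw [eq_top_iff]
  intro g _
  have hle : Subgroup.closure {pr A, pr B} ≤ H.map (QuotientGroup.mk' _) := by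
    rw [Subgroup.closure_le]
    rintro z (rfl | rfl)
    · exact ⟨A, hA, rfl⟩
    · exact ⟨B, hB, rfl⟩
  have hg : pr g ∈ H.map (QuotientGroup.mk' (Subgroup.center (SL F))) :=
    hle (by rw [h]; trivial)
  obtain ⟨w, hw, hwg⟩ := hg
  have : w⁻¹ * g ∈ Subgroup.center (SL F) :=
    QuotientGroup.eq.1 hwg
  have h2 := H.mul_mem hw (hc this)
  rwa [mul_inv_cancel_left] at h2

/-- The stabiliser of the line of `(u, v)`. -/
def lineStab (u v : F) : Subgroup (SL F) where
  carrier := {g | ∃ m : F, (g : M2 F) 0 0 * u + (g : M2 F) 0 1 * v = m * u ∧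
    (g : M2 F) 1 0 * u + (g : M2 F) 1 1 * v = m * v}
  one_mem' := ⟨1, by simp, by simp⟩
  mul_mem' := by
    rintro g h ⟨m, hm1, hm2⟩ ⟨n, hn1, hn2⟩
    refine ⟨n * m, ?_, ?_⟩
    · change ((g : M2 F) * (h : M2 F)) 0 0 * u + ((g : M2 F) * (h : M2 F)) 0 1 * v = n * m * u
      simp only [Matrix.mul_apply, Fin.sum_univ_two]
      linear_combination n * hm1 + (g : M2 F) 0 0 * hn1 + (g : M2 F) 0 1 * hn2
    · change ((g : M2 F) * (h : M2 F)) 1 0 * u + ((g : M2 F) * (h : M2 F)) 1 1 * v = n * m * v
      simp only [Matrix.mul_apply, Fin.sum_univ_two]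
      linear_combination n * hm2 + (g : M2 F) 1 0 * hn1 + (g : M2 F) 1 1 * hn2
  inv_mem' := by
    rintro g ⟨m, hm1, hm2⟩
    have hd : (g : M2 F) 0 0 * (g : M2 F) 1 1 - (g : M2 F) 0 1 * (g : M2 F) 1 0 = 1 := by
      rw [← Matrix.det_fin_two]; exact g.2
    have hinv : ((g⁻¹ : SL F) : M2 F) =
        !![(g : M2 F) 1 1, -(g : M2 F) 0 1; -(g : M2 F) 1 0, (g : M2 F) 0 0] := by
      exact (Matrix.SpecialLinearGroup.coe_inv g).trans (Matrix.adjugate_fin_two _)
    by_cases hm : m = 0
    · subst hm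
      have hu : u = 0 := by
        linear_combination (g : M2 F) 1 1 * hm1 - (g : M2 F) 0 1 * hm2 - u * hd
      have hv : v = 0 := by
        linear_combination (g : M2 F) 0 0 * hm2 - (g : M2 F) 1 0 * hm1 - v * hd
      exact ⟨0, by simp [hu, hv], by simp [hu, hv]⟩
    · refine ⟨m⁻¹, ?_, ?_⟩
      · rw [hinv]
        simp only [Matrix.of_apply, Matrix.cons_val', Matrix.cons_val_zero, Matrix.cons_val_one,
          Matrix.cons_val_fin_one]
        have : m * ((g : M2 F) 1 1 * u + -(g : M2 F) 0 1 * v) = u := by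
          linear_combination -(g : M2 F) 1 1 * hm1 + (g : M2 F) 0 1 * hm2 + u * hd
        rw [eq_comm, inv_mul_eq_iff_eq_mul₀ hm]
        exact this.symm
      · rw [hinv]
        simp only [Matrix.of_apply, Matrix.cons_val', Matrix.cons_val_zero, Matrix.cons_val_one,
          Matrix.cons_val_fin_one]
        have : m * (-(g : M2 F) 1 0 * u + (g : M2 F) 0 0 * v) = v := by
          linear_combination (g : M2 F) 1 0 * hm1 - (g : M2 F) 0 0 * hm2 + v * hd
        rw [eq_comm, inv_mul_eq_iff_eq_mul₀ hm]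
        exact this.symm

lemma center_le_lineStab (u v : F) :
    Subgroup.center (SL F) ≤ lineStab u v := by
  intro g hg
  obtain ⟨r, hr⟩ := center_scalar hg
  refine ⟨r, ?_, ?_⟩
  · rw [hr]; simp
  · rw [hr]; simp

lemma lineStab_ne_top {u v : F} (h : u ≠ 0 ∨ v ≠ 0) : lineStab u v ≠ ⊤ := by
  intro htop
  have h1 : mk2 (1 : F) 1 0 1 (by ring) ∈ lineStab u v := by rw [htop]; trivial
  have h2 : mk2 (1 : F) 0 1 1 (by ring) ∈ lineStab u v := by rw [htop]; trivial
  obtain ⟨m, hm1, hm2⟩ := h1
  obtain ⟨n, hn1, hn2⟩ := h2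
  rw [coe_mk2] at hm1 hm2 hn1 hn2
  simp at hm1 hm2 hn1 hn2
  have hv : v * v = 0 := by linear_combination v * hm1 - u * hm2
  have hu : u * u = 0 := by linear_combination u * hn2 - v * hn1
  rcases h with h | h
  · exact h (mul_self_eq_zero.1 hu)
  · exact h (mul_self_eq_zero.1 hv)

/-- The matrices commuting up to sign with `J`. -/
def commStab (J : M2 F) : Subgroup (SL F) where
  carrier := {g | (g : M2 F) * J = J * g ∨ (g : M2 F) * J = -(J * g)}
  one_mem' := by left; simp
  mul_mem' := by
    rintro g h (hg | hg) (hh | hh)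
    · left
      change ((g : M2 F) * (h : M2 F)) * J = J * ((g : M2 F) * (h : M2 F))
      rw [Matrix.mul_assoc, hh, ← Matrix.mul_assoc, hg,
        Matrix.mul_assoc]
    · right
      change ((g : M2 F) * (h : M2 F)) * J = -(J * ((g : M2 F) * (h : M2 F)))
      rw [Matrix.mul_assoc, hh, Matrix.mul_neg, ← Matrix.mul_assoc, hg,
        Matrix.mul_assoc]
    · right
      change ((g : M2 F) * (h : M2 F)) * J = -(J * ((g : M2 F) * (h : M2 F)))
      rw [Matrix.mul_assoc, hh, ← Matrix.mul_assoc, hg,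
        Matrix.neg_mul, Matrix.mul_assoc]
    · left
      change ((g : M2 F) * (h : M2 F)) * J = J * ((g : M2 F) * (h : M2 F))
      rw [Matrix.mul_assoc, hh, Matrix.mul_neg, ← Matrix.mul_assoc, hg,
        Matrix.neg_mul, Matrix.mul_assoc, neg_neg]
  inv_mem' := by
    intro g hg
    have e1 : ((g⁻¹ : SL F) : M2 F) * (g : M2 F) = 1 := by
      have h0 := congrArg (fun z : SL F => (z : M2 F)) (inv_mul_cancel g)
      exact h0
    have e2 : (g : M2 F) * ((g⁻¹ : SL F) : M2 F) = 1 := by
      have h0 := congrArg (fun z : SL F => (z : M2 F)) (mul_inv_cancel g)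
      exact h0
    rcases hg with hg | hg
    · left
      calc ((g⁻¹ : SL F) : M2 F) * J
          = ((g⁻¹ : SL F) : M2 F) * (J * ((g : M2 F) * ((g⁻¹ : SL F) : M2 F))) := by
            rw [e2, Matrix.mul_one]
        _ = ((g⁻¹ : SL F) : M2 F) * ((g : M2 F) * J) * ((g⁻¹ : SL F) : M2 F) := by
            rw [hg]; simp only [Matrix.mul_assoc]
        _ = J * ((g⁻¹ : SL F) : M2 F) := by rw [← Matrix.mul_assoc, e1, Matrix.one_mul]
    · right
      calc ((g⁻¹ : SL F) : M2 F) * J
          = ((g⁻¹ : SL F) : M2 F) * (J * ((g : M2 F) * ((g⁻¹ : SL F) : M2 F))) := by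
            rw [e2, Matrix.mul_one]
        _ = -(((g⁻¹ : SL F) : M2 F) * ((g : M2 F) * J) * ((g⁻¹ : SL F) : M2 F)) := by
            rw [hg]; simp only [Matrix.mul_assoc, Matrix.mul_neg, Matrix.neg_mul, neg_neg]
        _ = -(J * ((g⁻¹ : SL F) : M2 F)) := by
            rw [← Matrix.mul_assoc, e1, Matrix.one_mul]

lemma center_le_commStab (J : M2 F) :
    Subgroup.center (SL F) ≤ commStab J := by
  intro g hg
  obtain ⟨r, hr⟩ := center_scalar hg
  left
  rw [hr]
  exact (Matrix.scalar_commute r (fun r' => mul_comm r r') J).eq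

lemma commStab_ne_top (h2 : (2 : F) ≠ 0) {a b c : F} (h : a * a + b * c = -1) :
    commStab !![a, b; c, -a] ≠ ⊤ := by
  intro htop
  have h1 : mk2 (1 : F) 1 0 1 (by ring) ∈ commStab !![a, b; c, -a] := by rw [htop]; trivial
  have key : ∀ s : F, (s = 1 ∨ s = -1) →
      !![(1 : F), 1; 0, 1] * !![a, b; c, -a] =
        s • (!![a, b; c, -a] * !![(1 : F), 1; 0, 1]) → False := by
    intro s hs he
    have e00 := congrFun (congrFun he 0) 0
    have e01 := congrFun (congrFun he 0) 1
    have e10 := congrFun (congrFun he 1) 0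
    have e11 := congrFun (congrFun he 1) 1
    simp [Matrix.mul_apply, Fin.sum_univ_two] at e00 e01 e10 e11
    rcases hs with rfl | rfl
    · have hc : c = 0 := by linear_combination e00
      have ha : 2 * a = 0 := by linear_combination -e01
      have ha' : a = 0 := by simpa [h2] using ha
      rw [hc, ha'] at h
      simp at h
    · have hc : 2 * c = 0 := by linear_combination e10
      have hc' : c = 0 := by simpa [h2] using hc
      have ha : 2 * a = 0 := by linear_combination e00 - hc'
      have ha' : a = 0 := by simpa [h2] using ha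
      rw [hc', ha'] at h
      simp at h
  rcases h1 with h1 | h1
  · exact key 1 (Or.inl rfl) (by rw [one_smul]; exact h1)
  · exact key (-1) (Or.inr rfl) (by rw [neg_smul, one_smul]; exact h1)


section count

variable {F : Type*} [Field F] [Fintype F] [DecidableEq F]

lemma neg_one_not_sq (hq : Fintype.card F % 4 = 3) : ¬ IsSquare (-1 : F) := by
  rw [FiniteField.isSquare_neg_one_iff]
  simpa using hq

lemma two_ne (hq : Fintype.card F % 4 = 3) : (2 : F) ≠ 0 := by
  intro h
  apply neg_one_not_sq hq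
  refine ⟨1, ?_⟩
  linear_combination -h

lemma sq_or_neg (hq : Fintype.card F % 4 = 3) {a : F} (_ha : a ≠ 0) :
    IsSquare a ∨ IsSquare (-a) := by
  by_contra hcon
  rw [not_or] at hcon
  have hr : ringChar F ≠ 2 := by
    intro hr
    have : ((2 : ℕ) : F) = 0 := by rw [← hr]; exact ringChar.Nat.cast_ringChar
    exact two_ne hq (by exact_mod_cast this)
  have h1 : quadraticChar F a = -1 := (quadraticChar_neg_one_iff_not_isSquare).2 hcon.1
  have h2 : quadraticChar F (-a) = -1 := (quadraticChar_neg_one_iff_not_isSquare).2 hcon.2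
  have h3 : quadraticChar F (-1) = -1 :=
    (quadraticChar_neg_one_iff_not_isSquare).2 (neg_one_not_sq hq)
  have h4 : quadraticChar F (-a) = quadraticChar F (-1) * quadraticChar F a := by
    rw [← map_mul]; congr 1; ring
  rw [h1, h2, h3] at h4
  norm_num at h4

/-- the nonzero squares -/
def Sq (F : Type*) [Field F] [Fintype F] [DecidableEq F] : Finset F :=
  by classical exact Finset.univ.filter (fun c => c ≠ 0 ∧ IsSquare c)

lemma mem_Sq {c : F} : c ∈ Sq F ↔ c ≠ 0 ∧ IsSquare c := by
  unfold Sq; simp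

lemma card_ne_zero' : (Finset.univ.filter (fun s : F => s ≠ 0)).card = Fintype.card F - 1 := by
  rw [Finset.filter_ne']
  rw [Finset.card_erase_of_mem (Finset.mem_univ _), Finset.card_univ]

lemma card_Sq (hq : Fintype.card F % 4 = 3) : 2 * (Sq F).card = Fintype.card F - 1 := by
  classical
  rw [← card_ne_zero', two_mul]
  have hn : (Sq F).card = ((Sq F).image (fun x => -x)).card :=
    (Finset.card_image_of_injective _ neg_injective).symm
  conv_lhs => rw [hn]; rw [← hn]
  rw [show (Sq F).card + (Sq F).card = (Sq F).card + ((Sq F).image (fun x => -x)).card by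
    rw [← hn]]
  rw [← Finset.card_union_of_disjoint]
  · congr 1
    ext c
    simp only [Finset.mem_union, Finset.mem_image, mem_Sq, Finset.mem_filter, Finset.mem_univ,
      true_and]
    constructor
    · rintro (h | ⟨d, h, rfl⟩)
      · exact h.1
      · exact neg_ne_zero.2 h.1
    · intro h
      rcases sq_or_neg hq h with h' | h'
      · exact Or.inl ⟨h, h'⟩
      · exact Or.inr ⟨-c, ⟨neg_ne_zero.2 h, h'⟩, neg_neg c⟩
  · rw [Finset.disjoint_left]
    intro c hc hc'
    rw [Finset.mem_image] at hc'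
    obtain ⟨d, hd, hdc⟩ := hc'
    rw [mem_Sq] at hc hd
    obtain ⟨u, hu⟩ := hc.2
    obtain ⟨v, hv⟩ := hd.2
    apply neg_one_not_sq hq
    have hv0 : v ≠ 0 := by
      rintro rfl
      exact hd.1 (by rw [hv]; ring)
    refine ⟨u / v, ?_⟩
    field_simp
    linear_combination hu + hv + hdc

/-- `y^2 + 1` is a square for at most `(q - 1)/2` elements `y`. -/
lemma card_sq_add_one (hq : Fintype.card F % 4 = 3) :
    2 * (Finset.univ.filter (fun y : F => IsSquare (y * y + 1))).card ≤ Fintype.card F - 1 := by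
  classical
  have h2 := two_ne hq
  rw [← card_ne_zero']
  refine Finset.mul_card_image_le_card_of_maps_to (f := fun s : F => (s⁻¹ - s) / 2) ?_ 2 ?_
  · intro s hs
    rw [Finset.mem_filter] at hs
    rw [Finset.mem_filter]
    refine ⟨Finset.mem_univ _, ⟨(s⁻¹ + s) / 2, ?_⟩⟩
    have hs0 := hs.2
    field_simp
    ring
  · intro b hb
    rw [Finset.mem_filter] at hb
    obtain ⟨z, hz⟩ := hb.2
    have hz0 : z ≠ 0 := by
      rintro rfl
      apply neg_one_not_sq hq
      exact ⟨b, by linear_combination -hz⟩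
    have e1 : (z - b) * (z + b) = 1 := by linear_combination -hz
    have e2 : (-z - b) * (b - z) = 1 := by linear_combination -hz
    have n1 : z - b ≠ 0 := fun h => by rw [h] at e1; simp at e1
    have n2 : -z - b ≠ 0 := fun h => by rw [h] at e2; simp at e2
    have hne : z - b ≠ -z - b := by
      intro h
      have : 2 * z = 0 := by linear_combination h
      rcases mul_eq_zero.1 this with h' | h'
      · exact h2 h'
      · exact hz0 h'
    rw [← Finset.card_pair hne]
    apply Finset.card_le_card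
    intro s hs
    rw [Finset.mem_insert, Finset.mem_singleton] at hs
    rw [Finset.mem_filter, Finset.mem_filter]
    rcases hs with rfl | rfl
    · refine ⟨⟨Finset.mem_univ _, n1⟩, ?_⟩
      have : (z - b)⁻¹ = z + b := inv_eq_of_mul_eq_one_right e1
      change ((z - b)⁻¹ - (z - b)) / 2 = b
      rw [this]
      field_simp
      ring
    · refine ⟨⟨Finset.mem_univ _, n2⟩, ?_⟩
      have : (-z - b)⁻¹ = b - z := inv_eq_of_mul_eq_one_right e2
      change ((-z - b)⁻¹ - (-z - b)) / 2 = b
      rw [this]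
      field_simp
      ring

/-- shifted version -/
lemma card_shift (hq : Fintype.card F % 4 = 3) {a c : F} (hc : c ≠ 0) :
    2 * (Finset.univ.filter (fun x : F => IsSquare ((c * x - a) * (c * x - a) + 1))).card ≤
      Fintype.card F - 1 := by
  classical
  refine le_trans (Nat.mul_le_mul_left 2 ?_) (card_sq_add_one hq)
  refine Finset.card_le_card_of_injOn (fun x => c * x - a) ?_ ?_
  · intro x hx
    rw [Finset.coe_filter, Set.mem_ofPred_eq] at hx
    rw [Finset.coe_filter, Set.mem_ofPred_eq]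
    exact ⟨Finset.mem_univ _, hx.2⟩
  · intro x _ y _ h
    have : c * x = c * y := by
      have h' : c * x - a = c * y - a := h
      linear_combination h'
    exact mul_left_cancel₀ hc this

/-- the condition that the chord of `x` misses `J = (a, b; c, -a)` -/
def Miss (J : F × F × F) (x : F) : Prop :=
  IsSquare ((J.2.2 * x - J.1) * (J.2.2 * x - J.1) + 1)

open scoped Classical in
lemma greedy (hq : Fintype.card F % 4 = 3) (M : Finset (F × F × F))
    (hM : ∀ J ∈ M, J.2.2 ≠ 0) :
    ∃ x : F, 2 * (M.filter (fun J => Miss J x)).card ≤ M.card := by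
  by_contra hcon
  push Not at hcon
  have h1 : ∑ x : F, 2 * (M.filter (fun J => Miss J x)).card ≤ M.card * (Fintype.card F - 1) := by
    rw [← Finset.mul_sum]
    have : ∑ x : F, (M.filter (fun J => Miss J x)).card =
        ∑ J ∈ M, (Finset.univ.filter (fun x : F => Miss J x)).card := by
      simp only [Finset.card_filter]
      rw [Finset.sum_comm]
    rw [this, Finset.mul_sum, ← smul_eq_mul, ← Finset.sum_const]
    apply Finset.sum_le_sum
    intro J hJ
    have e : (Finset.univ.filter (fun x : F => Miss J x)) = Finset.univ.filter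
        (fun x : F => IsSquare ((J.2.2 * x - J.1) * (J.2.2 * x - J.1) + 1)) := by
      ext x
      rw [Finset.mem_filter, Finset.mem_filter]
      exact Iff.rfl
    rw [e]
    exact card_shift hq (hM J hJ)
  have h2 : ∑ _x : F, (M.card + 1) ≤ ∑ x : F, 2 * (M.filter (fun J => Miss J x)).card := by
    apply Finset.sum_le_sum
    intro x _
    exact hcon x
  rw [Finset.sum_const, Finset.card_univ, smul_eq_mul] at h2
  have h3 := h2.trans h1
  have hpos : 0 < Fintype.card F := Fintype.card_pos
  have h4 : Fintype.card F - 1 ≤ Fintype.card F := Nat.sub_le _ _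
  have h5 : M.card * (Fintype.card F - 1) ≤ M.card * Fintype.card F := Nat.mul_le_mul_left _ h4
  nlinarith

/-- the matrices `(a, b; c, -a)` of determinant one with `c` a nonzero square -/
def M0 (F : Type*) [Field F] [Fintype F] [DecidableEq F] : Finset (F × F × F) :=
  by classical exact Finset.univ.filter (fun J => J.1 * J.1 + J.2.1 * J.2.2 = -1 ∧ J.2.2 ∈ Sq F)

lemma mem_M0 {J : F × F × F} :
    J ∈ M0 F ↔ J.1 * J.1 + J.2.1 * J.2.2 = -1 ∧ J.2.2 ∈ Sq F := by
  unfold M0; simp

lemma card_M0 (hq : Fintype.card F % 4 = 3) :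
    2 * (M0 F).card ≤ Fintype.card F * (Fintype.card F - 1) := by
  classical
  rw [← card_Sq hq, ← mul_assoc, mul_comm (Fintype.card F) 2, mul_assoc]
  apply Nat.mul_le_mul_left
  rw [← Finset.card_univ, ← Finset.card_product]
  refine Finset.card_le_card_of_injOn (fun J => (J.1, J.2.2)) ?_ ?_
  · intro J hJ
    have hJ' := mem_M0.1 (Finset.mem_coe.1 hJ)
    simp only [Finset.coe_product, Set.mem_prod, Finset.mem_coe, Finset.mem_univ, true_and]
    exact hJ'.2
  · rintro ⟨a, b, c⟩ hJ ⟨a', b', c'⟩ hJ' h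
    have h1 := mem_M0.1 (Finset.mem_coe.1 hJ)
    have h2 := mem_M0.1 (Finset.mem_coe.1 hJ')
    simp only [Prod.mk.injEq] at h
    obtain ⟨rfl, rfl⟩ := h
    have hc := (mem_Sq.1 h1.2).1
    have h3 : b * c = b' * c := by
      have e1 := h1.1
      have e2 := h2.1
      simp only at e1 e2
      linear_combination e1 - e2
    have := mul_right_cancel₀ hc h3
    rw [this]

open scoped Classical in
lemma iterate (hq : Fintype.card F % 4 = 3) (k : ℕ) :
    ∃ (xs : Finset F) (M : Finset (F × F × F)), xs.card ≤ k ∧ 2 ^ k * M.card ≤ (M0 F).card ∧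
      M ⊆ M0 F ∧ ∀ J ∈ M0 F, J ∈ M ∨ ∃ x ∈ xs, ¬ Miss J x := by
  induction k with
  | zero => exact ⟨∅, M0 F, by simp, by simp, Finset.Subset.refl _, fun J hJ => Or.inl hJ⟩
  | succ k ih =>
    obtain ⟨xs, M, h1, h2, h3, h4⟩ := ih
    obtain ⟨x, hx⟩ := greedy hq M (fun J hJ => (mem_Sq.1 (mem_M0.1 (h3 hJ)).2).1)
    refine ⟨insert x xs, M.filter (fun J => Miss J x), ?_, ?_, ?_, ?_⟩
    · exact (Finset.card_insert_le _ _).trans (Nat.succ_le_succ h1)
    · calc 2 ^ (k + 1) * (M.filter (fun J => Miss J x)).card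
          = 2 ^ k * (2 * (M.filter (fun J => Miss J x)).card) := by ring
        _ ≤ 2 ^ k * M.card := Nat.mul_le_mul_left _ (by convert hx)
        _ ≤ _ := h2
    · exact (Finset.filter_subset _ _).trans h3
    · intro J hJ
      rcases h4 J hJ with h | ⟨z, hz, hz'⟩
      · by_cases hm : Miss J x
        · exact Or.inl (Finset.mem_filter.2 ⟨h, hm⟩)
        · exact Or.inr ⟨x, Finset.mem_insert_self _ _, hm⟩
      · exact Or.inr ⟨z, Finset.mem_insert_of_mem hz, hz'⟩

end count


section cover

variable {F : Type*} [Field F] [Fintype F] [DecidableEq F]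

/-- an involution exchanging the points `(1, 0)` and `(x, 1)` -/
def chordM (x t : F) : SL F :=
  if h : t ≠ 0 then mk2 (t * x) (-(t * x * x + t⁻¹)) t (-(t * x)) (by field_simp; ring) else 1

/-- the matrix `(a, b; c, -a)` -/
def jM (J : F × F × F) : SL F :=
  if h : J.1 * J.1 + J.2.1 * J.2.2 = -1 then
    mk2 J.1 J.2.1 J.2.2 (-J.1) (by linear_combination -h) else 1

/-- a matrix with eigenvectors `(x, 1)` and `(-x, 1)` -/
def torM (l x : F) : SL F :=
  if h : l ≠ 0 ∧ x ≠ 0 ∧ (2 : F) ≠ 0 then
    mk2 ((l + l⁻¹) / 2) ((l - l⁻¹) / 2 * x) ((l - l⁻¹) / 2 / x) ((l + l⁻¹) / 2)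
      (by obtain ⟨h1, h2, h3⟩ := h; field_simp; ring) else 1

/-- a diagonal matrix -/
def diagM (l : F) : SL F :=
  if h : l ≠ 0 then mk2 l 0 0 l⁻¹ (by field_simp; ring) else 1

/-- The set of `PSL` elements used. -/
noncomputable def XX (xs : Finset F) (M : Finset (F × F × F)) (l : F) :
    Finset (Matrix.ProjectiveSpecialLinearGroup (Fin 2) F) := by
  classical
  exact ((xs ×ˢ Sq F).image (fun p => pr (chordM p.1 p.2))) ∪ (M.image (fun J => pr (jM J))) ∪
    ((Sq F).image (fun x => pr (torM l x))) ∪ {pr (diagM l)}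

lemma card_XX (xs : Finset F) (M : Finset (F × F × F)) (l : F) :
    (XX xs M l).card ≤ xs.card * (Sq F).card + M.card + (Sq F).card + 1 := by
  classical
  unfold XX
  refine (Finset.card_union_le _ _).trans (Nat.add_le_add ?_ (by simp))
  refine (Finset.card_union_le _ _).trans (Nat.add_le_add ?_ Finset.card_image_le)
  refine (Finset.card_union_le _ _).trans (Nat.add_le_add ?_ Finset.card_image_le)
  refine Finset.card_image_le.trans ?_
  rw [Finset.card_product]

lemma XX_ne_one (hq : Fintype.card F % 4 = 3) {xs : Finset F} {M : Finset (F × F × F)}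
    (hM : M ⊆ M0 F) {l : F} (hl : l ≠ 0) (hl1 : l * l ≠ 1) :
    ∀ g ∈ XX xs M l, g ≠ 1 := by
  classical
  intro g hg
  unfold XX at hg
  rw [Finset.mem_union, Finset.mem_union, Finset.mem_union, Finset.mem_image, Finset.mem_image,
    Finset.mem_image, Finset.mem_singleton] at hg
  have h2 := two_ne hq
  have hll : l - l⁻¹ ≠ 0 := by
    intro h
    apply hl1
    have : l = l⁻¹ := sub_eq_zero.1 h
    calc l * l = l * l⁻¹ := by rw [← this]
      _ = 1 := mul_inv_cancel₀ hl
  rcases hg with ((⟨p, hp, rfl⟩ | ⟨J, hJ, rfl⟩) | ⟨x, hx, rfl⟩) | rfl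
  · have ht : p.2 ≠ 0 := (mem_Sq.1 (Finset.mem_product.1 hp).2).1
    apply pr_ne_one
    left
    rw [chordM, dif_pos ht, coe_mk2]
    simpa using ht
  · have h := mem_M0.1 (hM hJ)
    apply pr_ne_one
    left
    rw [jM, dif_pos h.1, coe_mk2]
    simpa using (mem_Sq.1 h.2).1
  · have hx0 := (mem_Sq.1 hx).1
    apply pr_ne_one
    left
    rw [torM, dif_pos ⟨hl, hx0, h2⟩, coe_mk2]
    simp only [Matrix.of_apply, Matrix.cons_val', Matrix.cons_val_zero, Matrix.cons_val_one,
          Matrix.cons_val_fin_one]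
    exact div_ne_zero (div_ne_zero hll h2) hx0
  · apply pr_ne_one
    right
    rw [diagM, dif_pos hl, coe_mk2]
    simp only [Matrix.of_apply, Matrix.cons_val', Matrix.cons_val_zero, Matrix.cons_val_one,
          Matrix.cons_val_fin_one]
    exact fun h => hll (sub_eq_zero.2 h)

/-- Elements with an eigenvector. -/
lemma cover_line (hq : Fintype.card F % 4 = 3) (xs : Finset F) (M : Finset (F × F × F))
    {l : F} (hl : l ≠ 0) {Y : SL F} {u v : F} (huv : u ≠ 0 ∨ v ≠ 0)
    (hY : Y ∈ lineStab u v) : ∃ g ∈ XX xs M l, Subgroup.closure {g, pr Y} ≠ ⊤ := by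
  classical
  have h2 := two_ne hq
  have main : ∃ A : SL F, pr A ∈ XX xs M l ∧ A ∈ lineStab u v := by
    by_cases hv : v = 0
    · refine ⟨diagM l, by unfold XX; simp, ⟨l, ?_, ?_⟩⟩
      · rw [diagM, dif_pos hl, coe_mk2]; simp
      · rw [diagM, dif_pos hl, coe_mk2]; simp [hv]
    · by_cases hu : u = 0
      · refine ⟨diagM l, by unfold XX; simp, ⟨l⁻¹, ?_, ?_⟩⟩
        · rw [diagM, dif_pos hl, coe_mk2]; simp [hu]
        · rw [diagM, dif_pos hl, coe_mk2]; simp
      · have hx0 : u / v ≠ 0 := div_ne_zero hu hv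
        rcases sq_or_neg hq hx0 with h | h
        · refine ⟨torM l (u / v), ?_, ⟨l, ?_, ?_⟩⟩
          · unfold XX
            rw [Finset.mem_union, Finset.mem_union]
            exact Or.inl (Or.inr (Finset.mem_image.2 ⟨u / v, mem_Sq.2 ⟨hx0, h⟩, rfl⟩))
          · rw [torM, dif_pos ⟨hl, hx0, h2⟩, coe_mk2]
            simp only [Matrix.of_apply, Matrix.cons_val', Matrix.cons_val_zero,
              Matrix.cons_val_one, Matrix.cons_val_fin_one]
            field_simp
            ring
          · rw [torM, dif_pos ⟨hl, hx0, h2⟩, coe_mk2]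
            simp only [Matrix.of_apply, Matrix.cons_val', Matrix.cons_val_zero,
              Matrix.cons_val_one, Matrix.cons_val_fin_one]
            field_simp
            ring
        · have hx1 : -(u / v) ≠ 0 := neg_ne_zero.2 hx0
          refine ⟨torM l (-(u / v)), ?_, ⟨l⁻¹, ?_, ?_⟩⟩
          · unfold XX
            rw [Finset.mem_union, Finset.mem_union]
            exact Or.inl (Or.inr (Finset.mem_image.2 ⟨-(u / v), mem_Sq.2 ⟨hx1, h⟩, rfl⟩))
          · rw [torM, dif_pos ⟨hl, hx1, h2⟩, coe_mk2]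
            simp only [Matrix.of_apply, Matrix.cons_val', Matrix.cons_val_zero,
              Matrix.cons_val_one, Matrix.cons_val_fin_one]
            field_simp
            ring
          · rw [torM, dif_pos ⟨hl, hx1, h2⟩, coe_mk2]
            simp only [Matrix.of_apply, Matrix.cons_val', Matrix.cons_val_zero,
              Matrix.cons_val_one, Matrix.cons_val_fin_one]
            field_simp
            ring
  obtain ⟨A, hA, hA'⟩ := main
  exact ⟨pr A, hA, closure_ne_top _ (center_le_lineStab u v) (lineStab_ne_top huv) hA' hY⟩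

/-- All elements. -/
lemma cover (hq : Fintype.card F % 4 = 3) {xs : Finset F} {M : Finset (F × F × F)}
    (hxs : ∀ J ∈ M0 F, J ∈ M ∨ ∃ x ∈ xs, ¬ Miss J x) {l : F} (hl : l ≠ 0) (Y : SL F) :
    ∃ g ∈ XX xs M l, Subgroup.closure {g, pr Y} ≠ ⊤ := by
  classical
  have h2 := two_ne hq
  obtain ⟨p, hp⟩ : ∃ p, p = (Y : M2 F) 0 0 := ⟨_, rfl⟩
  obtain ⟨r, hr⟩ : ∃ r, r = (Y : M2 F) 0 1 := ⟨_, rfl⟩
  obtain ⟨s, hs⟩ : ∃ s, s = (Y : M2 F) 1 0 := ⟨_, rfl⟩
  obtain ⟨w, hw⟩ : ∃ w, w = (Y : M2 F) 1 1 := ⟨_, rfl⟩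
  have hd : p * w - r * s = 1 := by
    rw [hp, hr, hs, hw, ← Matrix.det_fin_two]; exact Y.2
  have hYm : (Y : M2 F) = !![p, r; s, w] := by
    rw [hp, hr, hs, hw]; exact Matrix.eta_fin_two _
  by_cases hs0 : s = 0
  · refine cover_line hq xs M hl (u := 1) (v := 0) (Or.inl one_ne_zero) ⟨p, ?_, ?_⟩
    · rw [hYm]; simp
    · rw [hYm]; simp [hs0]
  by_cases hD : IsSquare ((p + w) * (p + w) - 4)
  · obtain ⟨d, hd'⟩ := hD
    have hm : ((p + w + d) / 2) * ((p + w + d) / 2) = (p + w) * ((p + w + d) / 2) - 1 := by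
      field_simp
      linear_combination -hd'
    refine cover_line hq xs M hl (u := (p + w + d) / 2 - w) (v := s) (Or.inr hs0)
      ⟨(p + w + d) / 2, ?_, ?_⟩
    · rw [hYm]
      simp only [Matrix.of_apply, Matrix.cons_val', Matrix.cons_val_zero, Matrix.cons_val_one,
          Matrix.cons_val_fin_one]
      linear_combination -hm - hd
    · rw [hYm]
      simp only [Matrix.of_apply, Matrix.cons_val', Matrix.cons_val_zero, Matrix.cons_val_one,
          Matrix.cons_val_fin_one]
      ring
  have hD0 : (p + w) * (p + w) - 4 ≠ 0 := by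
    intro h
    apply hD
    rw [h]
    exact ⟨0, by ring⟩
  have hD1 : IsSquare (-((p + w) * (p + w) - 4)) := (sq_or_neg hq hD0).resolve_left hD
  obtain ⟨e, he, he0, hc⟩ : ∃ e : F, -((p + w) * (p + w) - 4) = e * e ∧ e ≠ 0 ∧
      IsSquare (2 * s / e) := by
    obtain ⟨e, he⟩ := hD1
    have he0 : e ≠ 0 := by
      rintro rfl
      apply hD0
      linear_combination -he
    rcases sq_or_neg hq (div_ne_zero (mul_ne_zero h2 hs0) he0) with h | h
    · exact ⟨e, he, he0, h⟩
    · refine ⟨-e, by rw [he]; ring, neg_ne_zero.2 he0, ?_⟩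
      rwa [div_neg]
  obtain ⟨a, ha⟩ : ∃ a, a = (p - w) / e := ⟨_, rfl⟩
  obtain ⟨b, hb⟩ : ∃ b, b = 2 * r / e := ⟨_, rfl⟩
  obtain ⟨c, hc'⟩ : ∃ c, c = 2 * s / e := ⟨_, rfl⟩
  have hae : a * e = p - w := by rw [ha]; field_simp
  have hbe : b * e = 2 * r := by rw [hb]; field_simp
  have hce : c * e = 2 * s := by rw [hc']; field_simp
  have hc0 : c ≠ 0 := by rw [hc']; exact div_ne_zero (mul_ne_zero h2 hs0) he0
  have hJ1 : a * a + b * c = -1 := by
    have h1 : (a * a + b * c) * (e * e) = -1 * (e * e) := by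
      calc (a * a + b * c) * (e * e) = (a * e) * (a * e) + (b * e) * (c * e) := by ring
        _ = (p - w) * (p - w) + (2 * r) * (2 * s) := by rw [hae, hbe, hce]
        _ = -1 * (e * e) := by rw [← he]; linear_combination -4 * hd
    exact mul_right_cancel₀ (mul_ne_zero he0 he0) h1
  have hJ : (a, b, c) ∈ M0 F := mem_M0.2 ⟨hJ1, mem_Sq.2 ⟨hc0, by rw [hc']; exact hc⟩⟩
  have hYJ : Y ∈ commStab !![a, b; c, -a] := by
    left
    rw [hYm]
    have k1 : r * c = b * s := by
      have : (r * c) * (e * 2) = (b * s) * (e * 2) := by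
        linear_combination 2 * r * hce - 2 * s * hbe
      exact mul_right_cancel₀ (mul_ne_zero he0 h2) this
    have k2 : p * b - r * a = a * r + b * w := by
      have : (p * b - r * a) * e = (a * r + b * w) * e := by
        linear_combination (p - w) * hbe - 2 * r * hae
      exact mul_right_cancel₀ he0 this
    have k3 : s * a + w * c = c * p - a * s := by
      have : (s * a + w * c) * e = (c * p - a * s) * e := by
        linear_combination 2 * s * hae - (p - w) * hce
      exact mul_right_cancel₀ he0 this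
    rw [Matrix.mul_fin_two, Matrix.mul_fin_two]
    ext i j
    fin_cases i <;> fin_cases j <;> simp
    · linear_combination k1
    · linear_combination k2
    · linear_combination k3
    · linear_combination -k1
  rcases hxs _ hJ with hM | ⟨x, hx, hx'⟩
  · refine ⟨pr (jM (a, b, c)), ?_, ?_⟩
    · unfold XX
      rw [Finset.mem_union, Finset.mem_union, Finset.mem_union]
      exact Or.inl (Or.inl (Or.inr (Finset.mem_image.2 ⟨_, hM, rfl⟩)))
    · refine closure_ne_top _ (center_le_commStab _) (commStab_ne_top h2 hJ1) ?_ hYJ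
      left
      rw [jM, dif_pos hJ1, coe_mk2]
  · obtain ⟨m, hm⟩ : ∃ m, m = c * x * x - 2 * a * x - b := ⟨_, rfl⟩
    have hcm : c * m = (c * x - a) * (c * x - a) + 1 := by
      rw [hm]; linear_combination -hJ1
    have hns : ¬ IsSquare (c * m) := by rw [hcm]; exact hx'
    have hm0 : m ≠ 0 := by
      rintro h
      apply hns
      rw [h]
      exact ⟨0, by ring⟩
    have hmn : IsSquare (-m) := by
      refine (sq_or_neg hq hm0).resolve_left ?_
      intro h
      exact hns ((mem_Sq.1 (mem_M0.1 hJ).2).2.mul h)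
    obtain ⟨f, hf⟩ : IsSquare (c / (-m)) := (mem_Sq.1 (mem_M0.1 hJ).2).2.div hmn
    have hf0 : f ≠ 0 := by
      rintro rfl
      have : c / (-m) = 0 := by rw [hf]; ring
      exact div_ne_zero hc0 (neg_ne_zero.2 hm0) this
    obtain ⟨t, ht, ht0, htm⟩ : ∃ t : F, IsSquare t ∧ t ≠ 0 ∧ c = -(t * t * m) := by
      have hff : c = -(f * f * m) := by
        rw [← hf]; field_simp
      rcases sq_or_neg hq hf0 with h | h
      · exact ⟨f, h, hf0, hff⟩
      · exact ⟨-f, h, neg_ne_zero.2 hf0, by rw [hff]; ring⟩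
    refine ⟨pr (chordM x t), ?_, ?_⟩
    · unfold XX
      rw [Finset.mem_union, Finset.mem_union, Finset.mem_union]
      exact Or.inl (Or.inl (Or.inl (Finset.mem_image.2 ⟨(x, t),
        Finset.mem_product.2 ⟨hx, mem_Sq.2 ⟨ht0, ht⟩⟩, rfl⟩)))
    · refine closure_ne_top _ (center_le_commStab _) (commStab_ne_top h2 hJ1) ?_ hYJ
      right
      rw [chordM, dif_pos ht0, coe_mk2]
      have hct : c * t⁻¹ = -(t * m) := by
        rw [htm]; field_simp
      have key : 2 * t * x * a - (t * x * x + t⁻¹) * c + t * b = 0 := by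
        linear_combination -hct + t * hm
      rw [Matrix.mul_fin_two, Matrix.mul_fin_two]
      ext i j
      fin_cases i <;> fin_cases j <;> simp
      · linear_combination key
      · ring
      · ring
      · linear_combination key

end cover


section final

lemma hasSpread_zero (G : Type*) [Group G] : HasSpread G 0 := fun _ _ => ⟨1, fun i => i.elim0⟩

/-- A finite set of nontrivial elements not all of which generate with a common element bounds the
spread. -/
lemma lt_card_of_hasSpread {G : Type*} [Group G] {X : Finset G} (h1 : ∀ g ∈ X, g ≠ 1)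
    (h2 : ∀ y : G, ∃ g ∈ X, Subgroup.closure {g, y} ≠ ⊤) {n : ℕ} (hn : HasSpread G n) :
    n < X.card := by
  by_contra hcon
  rw [not_lt] at hcon
  obtain ⟨g0, hg0, -⟩ := h2 1
  classical
  let x : Fin n → G := fun i => if h : (i : ℕ) < X.card then (X.equivFin.symm ⟨i, h⟩ : G) else g0
  have hx1 : ∀ i, x i ≠ 1 := by
    intro i
    by_cases h : (i : ℕ) < X.card
    · simp only [x, dif_pos h]
      exact h1 _ (X.equivFin.symm ⟨i, h⟩).2
    · simp only [x, dif_neg h]
      exact h1 _ hg0
  obtain ⟨y, hy⟩ := hn x hx1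
  obtain ⟨g, hg, hgy⟩ := h2 y
  apply hgy
  have hi : ((X.equivFin ⟨g, hg⟩ : Fin X.card) : ℕ) < n := lt_of_lt_of_le (Fin.isLt _) hcon
  have := hy ⟨(X.equivFin ⟨g, hg⟩ : Fin X.card), hi⟩
  simp only [x, dif_pos (Fin.isLt (X.equivFin ⟨g, hg⟩))] at this
  simpa using this

theorem bound {F : Type*} [Field F] [Fintype F] (hq : Fintype.card F % 4 = 3)
    (h3 : 3 < Fintype.card F) {n : ℕ}
    (hn : HasSpread (Matrix.ProjectiveSpecialLinearGroup (Fin 2) F) n) (k : ℕ) :
    2 ^ (k + 1) * n ≤ (Fintype.card F - 1) * ((k + 1) * 2 ^ k + Fintype.card F) := by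
  classical
  obtain ⟨xs, M, hk, hM, hMM, hcov⟩ : ∃ (xs : Finset F) (M : Finset (F × F × F)), xs.card ≤ k ∧
      2 ^ k * M.card ≤ (M0 F).card ∧ M ⊆ M0 F ∧
      ∀ J ∈ M0 F, J ∈ M ∨ ∃ x ∈ xs, ¬ Miss J x := iterate hq k
  obtain ⟨l, hl0, hl1⟩ : ∃ l : F, l ≠ 0 ∧ l * l ≠ 1 := by
    by_contra hcon
    push Not at hcon
    have : (Finset.univ : Finset F) ⊆ {0, 1, -1} := by
      intro x _
      by_cases hx : x = 0
      · simp [hx]
      · have := hcon x hx
        have h' : (x - 1) * (x + 1) = 0 := by linear_combination this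
        rcases mul_eq_zero.1 h' with h | h
        · simp [sub_eq_zero.1 h]
        · simp [eq_neg_of_add_eq_zero_left h]
    have h4 := (Finset.card_le_card this).trans (Finset.card_le_three)
    rw [Finset.card_univ] at h4
    omega
  have hlt := lt_card_of_hasSpread (XX_ne_one hq hMM hl0 hl1)
    (fun y => by
      obtain ⟨Y, rfl⟩ := QuotientGroup.mk_surjective y
      exact cover hq hcov hl0 Y) hn
  have hX := card_XX xs M l
  have hS := card_Sq (F := F) hq
  have hM0 := card_M0 (F := F) hq
  have hn' : n ≤ (k + 1) * (Sq F).card + M.card := by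
    have h5 : xs.card * (Sq F).card ≤ k * (Sq F).card := Nat.mul_le_mul_right _ hk
    have h6 : n ≤ xs.card * (Sq F).card + M.card + (Sq F).card := by omega
    calc n ≤ xs.card * (Sq F).card + M.card + (Sq F).card := h6
      _ ≤ k * (Sq F).card + M.card + (Sq F).card := by omega
      _ = _ := by ring
  calc 2 ^ (k + 1) * n ≤ 2 ^ (k + 1) * ((k + 1) * (Sq F).card + M.card) :=
        Nat.mul_le_mul_left _ hn'
    _ = 2 ^ k * (k + 1) * (2 * (Sq F).card) + 2 * (2 ^ k * M.card) := by ring
    _ ≤ 2 ^ k * (k + 1) * (Fintype.card F - 1) + 2 * (M0 F).card := by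
        rw [hS]
        omega
    _ ≤ 2 ^ k * (k + 1) * (Fintype.card F - 1) + Fintype.card F * (Fintype.card F - 1) := by omega
    _ = _ := by ring

end final

end PSLSpread
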